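import Pool.Agent.W438.CY.Stm

set_option autoImplicit false

namespace Pool.Agent.W900.CY

open Function Pool.Agent.W438.CY

theorem sum_base (t : ℝ) (h0 : 0 < t) (h1 : t < 1) : ∀ m : ℕ,
    Summable (fun g : Fin m → ℕ => t ^ (∑ l, g l)) := by
  intro m
  induction m with
  | zero =>
    haveI : Fintype (Fin 0 → ℕ) := Unique.fintype
    exact (hasSum_fintype _).summable
  | succ m ih =>
    have hgeo : Summable (fun n : ℕ => t ^ n) := summable_geometric_of_lt_one h0.le h1
    have hp : Summable (fun p : ℕ × (Fin m → ℕ) => t ^ p.1 * t ^ (∑ l, p.2 l)) :=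
      hgeo.mul_of_nonneg ih (fun n => pow_nonneg h0.le _) (fun g => pow_nonneg h0.le _)
    rw [← (Fin.consEquiv (fun _ : Fin (m + 1) => ℕ)).summable_iff]
    refine hp.congr ?_
    intro p
    simp only [Function.comp, Fin.consEquiv, Equiv.coe_fn_mk, Fin.sum_univ_succ, Fin.cons_zero,
      Fin.cons_succ, pow_add]

theorem sm : S_SUM := by
  intro m t h0 h1
  have hb := sum_base t h0 h1 m
  have hgeo : Summable (fun n : ℕ => t ^ n) := summable_geometric_of_lt_one h0.le h1
  constructor
  · rintro F ⟨K, hK⟩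
    refine Summable.of_norm_bounded (hb.mul_right K) ?_
    intro g
    rw [Real.norm_eq_abs, abs_mul, abs_of_nonneg (pow_nonneg h0.le _)]
    exact mul_le_mul_of_nonneg_left (hK g) (pow_nonneg h0.le _)
  · rintro F ⟨K, hK⟩
    have hp : Summable (fun p : (Fin m → ℕ) × ℕ => t ^ (∑ l, p.1 l) * t ^ p.2) :=
      hb.mul_of_nonneg hgeo (fun g => pow_nonneg h0.le _) (fun n => pow_nonneg h0.le _)
    refine Summable.of_norm_bounded (hp.mul_right K) ?_
    intro p
    rw [Real.norm_eq_abs, abs_mul, abs_of_nonneg (pow_nonneg h0.le _), pow_add]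
    exact mul_le_mul_of_nonneg_left (hK p) (mul_nonneg (pow_nonneg h0.le _) (pow_nonneg h0.le _))

end Pool.Agent.W900.CY
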